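import Mathlib
import Pool.Agent.MP_3d0d30_nt.Numeric

set_option autoImplicit false

namespace Pool.Agent.Results.MP_3d0d30_nt.FourthMoment

/-- Explicit fourth moment bound on the critical line: for every `T ≥ 1000`,
`∫_0^T |ζ(1/2 + it)|^4 dt ≤ (6/7) T (log T)^4`. -/
theorem result (T : ℝ) (hT : 1000 ≤ T) :
    ∫ t in (0 : ℝ)..T, ‖riemannZeta (1 / 2 + t * Complex.I)‖ ^ 4 ≤
      6 / 7 * T * Real.log T ^ 4 :=
  Pool.Agent.MP_3d0d30_nt.fourth_moment hT

end Pool.Agent.Results.MP_3d0d30_nt.FourthMoment
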