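import Mathlib
import Pool.Agent.MP_3d0d30_nt.Six.All16

set_option autoImplicit false

namespace Pool.Agent.Results.MP_3d0d30_nt.HighMoments

/-- Moments of zeta on the critical line between the fourth and the twelfth. -/
theorem result (k ε : ℝ) (hk2 : 2 ≤ k) (hk6 : k ≤ 6) (hε : 0 < ε) :
    ∃ C : ℝ, ∀ T : ℝ, 1 ≤ T →
      ∫ t in (0 : ℝ)..T, ‖riemannZeta (1 / 2 + t * Complex.I)‖ ^ (2 * k) ≤
        C * T ^ (max (1 + 3 * (k - 2) / 13) (2 - 6 * (6 - k) / 23) + ε) :=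
  Pool.Agent.MP_3d0d30_nt.Six.main2 k ε hk2 hk6 hε

end Pool.Agent.Results.MP_3d0d30_nt.HighMoments
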