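import Mathlib
import Pool.Agent.MP_3d0d30_nt.Off2.Main

set_option autoImplicit false

namespace Pool.Agent.Results.MP_3d0d30_nt.OffLineMoments

/-- Moments of zeta of Lindeloef size on the lines `1/2 < σ < 1`. -/
theorem result : ∃ δ : ℝ, 0 < δ ∧ ∀ σ A ε : ℝ, 1 / 2 < σ → σ < 1 → 0 ≤ A →
    (σ ≤ 5 / 8 →
      A ≤ min (48 / (37 - 50 * σ)) (min (56 / (40 - 53 * σ)) ((26 + δ) / (17 - 22 * σ)))) →
    (5 / 8 < σ → A * (17471 / 20000 - σ) ≤ 4971 / 2500) → 0 < ε →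
    ∃ C : ℝ, ∀ T : ℝ, 1 ≤ T →
      ∫ t in (0 : ℝ)..T, ‖riemannZeta (σ + t * Complex.I)‖ ^ A ≤ C * T ^ (1 + ε) :=
  Pool.Agent.MP_3d0d30_nt.Off2.main

end Pool.Agent.Results.MP_3d0d30_nt.OffLineMoments
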