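import Mathlib
import Pool.Agent.MP_3d0d30_nt.Six.All12

set_option autoImplicit false

namespace Pool.Agent.Results.MP_3d0d30_nt.TwelfthMoment

/-- A power saving in the twelfth moment of zeta on the critical line. -/
theorem result : ∃ δ : ℝ, 0 < δ ∧ ∃ C : ℝ, ∀ T : ℝ, 1 ≤ T →
    ∫ t in (0 : ℝ)..T, ‖riemannZeta (1 / 2 + t * Complex.I)‖ ^ 12 ≤ C * T ^ (2 - δ) :=
  Pool.Agent.MP_3d0d30_nt.Six.twelve

end Pool.Agent.Results.MP_3d0d30_nt.TwelfthMoment
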